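import Pool.Agent.H980.C9.Com

set_option autoImplicit false
set_option linter.unusedSectionVars false

/-!
# `S_c` (helper980; the exact identity is copied from `H969/CV322/C.lean`)
-/

namespace Pool.Agent.H980.C9.C

open Finset Pool.Agent.R439.PL Pool.Agent.H547 Pool.Agent.H547.C9 Pool.Agent.H980.C9
open scoped Nat

theorem w_succ (k : ℕ) : w (k + 1) * (2 * ((k : ℚ) + 1)) = w k * (2 * k + 1) := by
  unfold w
  have h : ((k : ℚ) + 1) * (Nat.centralBinom (k + 1) : ℚ) = 2 * (2 * k + 1) * Nat.centralBinom k := by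
    exact_mod_cast Nat.succ_mul_centralBinom_succ k
  rw [pow_succ]
  field_simp
  linarith

theorem w_zero : w 0 = 1 := by
  unfold w
  simp

theorem choose_diag (k : ℕ) : ((2 * k).choose k : ℚ) = 4 ^ k * w k := by
  unfold w
  rw [Nat.centralBinom_eq_two_mul_choose]
  field_simp

/-- `(j+1) C(n,j+1) = (n-j) C(n,j)` -/
theorem ch1 (n j : ℕ) : ((j : ℚ) + 1) * (n.choose (j + 1) : ℚ) = ((n : ℚ) - j) * n.choose j := by
  rcases le_or_gt j n with h | h
  · have h1 := Nat.choose_succ_right_eq n j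
    have h2 : ((n.choose (j + 1) * (j + 1) : ℕ) : ℚ) = ((n.choose j * (n - j) : ℕ) : ℚ) := by
      rw [h1]
    rw [Nat.cast_mul, Nat.cast_mul, Nat.cast_sub h] at h2
    push_cast at h2
    linarith
  · rw [Nat.choose_eq_zero_of_lt h, Nat.choose_eq_zero_of_lt (by omega)]
    simp

def F (l i : ℕ) : ℚ := w l * w i * (-2) ^ i * (((i : ℚ) + 1) * ((2 * l).choose (i + 1) : ℚ))

def G (l i : ℕ) : ℚ := -(w l * w i * (-2) ^ i * ((i : ℚ) * ((2 * l).choose (i - 1) : ℚ)))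

theorem G_zero (l : ℕ) : G l 0 = 0 := by unfold G; simp

theorem F_zero (i : ℕ) : F 0 i = 0 := by
  unfold F
  rw [Nat.choose_eq_zero_of_lt (by omega : 2 * 0 < i + 1)]
  simp

theorem G_succ (l i : ℕ) : G l (i + 1) = w l * w i * (-2) ^ i * ((2 * (i : ℚ) + 1) *
    ((2 * l).choose i : ℚ)) := by
  unfold G
  have h := w_succ i
  rw [Nat.add_sub_cancel, pow_succ]
  push_cast
  linear_combination (w l * (-2) ^ i * ((2 * l).choose i : ℚ)) * h

theorem F_succ (l i : ℕ) : F (l + 1) i = w l * w i * (-2) ^ i * ((2 * (l : ℚ) + 1) *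
    ((2 * l + 1).choose i : ℚ)) := by
  unfold F
  have h := w_succ l
  have h2 : ((i : ℚ) + 1) * ((2 * (l + 1)).choose (i + 1) : ℚ) =
      (2 * (l : ℚ) + 2) * ((2 * l + 1).choose i : ℚ) := by
    have h3 := Nat.add_one_mul_choose_eq (2 * l + 1) i
    have h4 : (((2 * l + 1 + 1) * (2 * l + 1).choose i : ℕ) : ℚ) =
        (((2 * l + 1 + 1).choose (i + 1) * (i + 1) : ℕ) : ℚ) := by rw [h3]
    push_cast at h4
    have e : 2 * (l + 1) = 2 * l + 1 + 1 := by ring
    rw [e]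
    linarith
  rw [h2]
  linear_combination (w i * (-2) ^ i * ((2 * l + 1).choose i : ℚ)) * h

theorem WZ (l i : ℕ) : F (l + 1) i - F l i = G l (i + 1) - G l i := by
  rw [F_succ, G_succ]
  cases i with
  | zero =>
    rw [G_zero]
    unfold F
    simp
    ring
  | succ i =>
    unfold F G
    rw [ch1 (2 * l) (i + 1), Nat.add_sub_cancel]
    have h1 : ((2 * l + 1).choose (i + 1) : ℚ) = (2 * l).choose i + (2 * l).choose (i + 1) := by
      exact_mod_cast Nat.choose_succ_succ (2 * l) i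
    have h2 := ch1 (2 * l) i
    rw [h1]
    push_cast at h2 ⊢
    linear_combination (-(w l * w (i + 1) * (-2) ^ (i + 1))) * h2

def Ps (l i : ℕ) : ℚ := ∑ m ∈ range i, F l m

theorem Ps_zero_right (l : ℕ) : Ps l 0 = 0 := by unfold Ps; simp

theorem Ps_zero_left (i : ℕ) : Ps 0 i = 0 := by
  unfold Ps
  exact sum_eq_zero fun m _ => F_zero m

theorem Ps_right (l i : ℕ) : Ps l (i + 1) - Ps l i = F l i := by
  unfold Ps
  rw [sum_range_succ]
  ring

theorem Ps_left (l i : ℕ) : Ps (l + 1) i - Ps l i = G l i := by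
  unfold Ps
  rw [← sum_sub_distrib]
  have h : ∀ m ∈ range i, F (l + 1) m - F l m = G l (m + 1) - G l m := fun m _ => WZ l m
  rw [sum_congr rfl h, sum_range_sub, G_zero, sub_zero]

def b3 (k : ℕ) : ℚ := (3 * (k : ℚ) + 1) * (Nat.centralBinom k : ℚ) ^ 3

/-- the terms of the series -/
def be (k : ℕ) : ℚ := b3 k / (-8) ^ k

theorem diag (k : ℕ) : F (k + 1) k + G k k = be k := by
  have hb : be k = (3 * (k : ℚ) + 1) * (-8) ^ k * w k ^ 3 := by
    unfold be b3 w
    have h8 : ((-8 : ℚ)) ^ k * (-8) ^ k = 4 ^ k * 4 ^ k * 4 ^ k := by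
      rw [← mul_pow, ← mul_pow, ← mul_pow]
      norm_num
    have h80 : ((-8 : ℚ)) ^ k ≠ 0 := pow_ne_zero _ (by norm_num)
    have h40 : ((4 : ℚ)) ^ k ≠ 0 := pow_ne_zero _ (by norm_num)
    rw [div_eq_iff h80, div_pow]
    have e : (3 * (k : ℚ) + 1) * (-8) ^ k * ((Nat.centralBinom k : ℚ) ^ 3 / (4 ^ k) ^ 3) * (-8) ^ k =
        (3 * (k : ℚ) + 1) * (Nat.centralBinom k : ℚ) ^ 3 * ((-8) ^ k * (-8) ^ k) / (4 ^ k) ^ 3 := by
      ring
    rw [e, h8]
    field_simp
  rw [hb, F_succ]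
  have h8 : ((-8 : ℚ)) ^ k = (-2) ^ k * 4 ^ k := by
    rw [← mul_pow]
    norm_num
  unfold G
  cases k with
  | zero => simp [w_zero]
  | succ k =>
    have h0 := choose_diag (k + 1)
    have h1 : ((2 * (k + 1) + 1).choose (k + 1) : ℚ) =
        (2 * (k + 1)).choose k + (2 * (k + 1)).choose (k + 1) := by
      exact_mod_cast Nat.choose_succ_succ (2 * (k + 1)) k
    have h2 := ch1 (2 * (k + 1)) k
    rw [h1, h8, Nat.add_sub_cancel]
    push_cast at h2 ⊢
    have h3 : ((k : ℚ) + 2) * ((2 * (k + 1)).choose k : ℚ) =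
        ((k : ℚ) + 1) * ((2 * (k + 1)).choose (k + 1) : ℚ) := by linarith
    linear_combination (w (k + 1) * w (k + 1) * (-2) ^ (k + 1)) * h3 +
      (w (k + 1) * w (k + 1) * (-2) ^ (k + 1) * (3 * ((k : ℚ) + 1) + 1)) * h0

theorem Ps_diag (k : ℕ) : Ps (k + 1) (k + 1) - Ps k k = be k := by
  rw [← diag, ← Ps_left k k, ← Ps_right (k + 1) k]
  ring

theorem Ps_sum (n : ℕ) : Ps n n = ∑ j ∈ range n, be j := by
  induction n with
  | zero => exact Ps_zero_right 0
  | succ n ih => rw [sum_range_succ, ← ih, ← Ps_diag]; ring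


/-- the sum of the exact identity -/
def TT (N : ℕ) : ℚ := ∑ m ∈ range N, w m * (-2) ^ m * ((2 * N - 1).choose m : ℚ)

theorem exact_id (N : ℕ) : SU 3 1 (-1 / 8) N = 2 * N * w N * TT N := by
  have h1 : SU 3 1 (-1 / 8) N = Ps N N := by
    rw [Ps_sum]
    unfold SU be b3
    refine sum_congr rfl fun k _ => ?_
    rw [div_eq_mul_inv (_ * _) ((-8 : ℚ) ^ k), ← inv_pow]
    norm_num
  rw [h1]
  unfold Ps TT
  rw [mul_sum]
  refine sum_congr rfl fun m hm => ?_
  have hN : 0 < N := lt_of_le_of_lt (Nat.zero_le m) (mem_range.1 hm)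
  unfold F
  have h3 := Nat.add_one_mul_choose_eq (2 * N - 1) m
  rw [show 2 * N - 1 + 1 = 2 * N by omega] at h3
  have h4 : (((2 * N) * (2 * N - 1).choose m : ℕ) : ℚ) =
      (((2 * N).choose (m + 1) * (m + 1) : ℕ) : ℚ) := by rw [h3]
  rw [Nat.cast_mul, Nat.cast_mul] at h4
  push_cast at h4
  linear_combination (-(w N * w m * (-2) ^ m)) * h4

variable {p : ℕ} [hp : Fact p.Prime]

theorem u4 (h3 : 3 < p) : U p (4 : ℚ) := by
  have h := (u2 (p := p) (by omega)).pow 2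
  have e : (2 : ℚ) ^ 2 = 4 := by norm_num
  rwa [e] at h

theorem w_mem (h3 : 3 < p) (k : ℕ) : w k ∈ Zp p := by
  unfold w
  exact dmem (nat_mem _) ((u4 h3).pow k)

/-- `C(2m,m) ≡ (-4)^m C(n,m)` -/
theorem cb (h3 : 3 < p) {n : ℕ} (hn : 2 * n + 1 = p) {m : ℕ} (hm : m < p) :
    EQ p 1 ((2 * m).choose m : ℚ) ((-4) ^ m * (n.choose m : ℚ)) := by
  have m4 : ∀ k : ℕ, ((-4 : ℚ)) ^ k * (n.choose k : ℚ) ∈ Zp p := fun k =>
    mul_mem (pow_mem (neg_mem (nm 4)) k) (nat_mem _)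
  refine ⟨nat_mem _, m4 m, ?_⟩
  induction m with
  | zero => simpa using I.zero
  | succ m ih =>
    have h0 := ih (by omega)
    have hu : U p ((m : ℚ) + 1) := uSucc (n := p - 1) (by omega) (by omega)
    have c1 := Nat.succ_mul_centralBinom_succ m
    rw [Nat.centralBinom_eq_two_mul_choose, Nat.centralBinom_eq_two_mul_choose] at c1
    have c1' : ((m : ℚ) + 1) * ((2 * (m + 1)).choose (m + 1) : ℚ) =
        2 * (2 * m + 1) * ((2 * m).choose m : ℚ) := by exact_mod_cast c1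
    have c2 := ch1 n m
    apply hu.cancel
    have hpq : 2 * (n : ℚ) + 1 = p := by exact_mod_cast hn
    have e1 : I p 1 (2 * (2 * (m : ℚ) + 1) * (((2 * m).choose m : ℚ) - (-4) ^ m * (n.choose m : ℚ))) :=
      h0.mulL (mul_mem (nm 2) (add_mem (mul_mem (nm 2) (nat_mem m)) (one_mem _)))
    have e2 : I p 1 ((p : ℚ) * (2 * ((-4) ^ m * (n.choose m : ℚ)))) :=
      (I_p (p := p)).mulR (mul_mem (nm 2) (m4 m))
    refine icg (e1.add e2) ?_
    rw [← hpq, pow_succ]
    push_cast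
    linear_combination (-1 : ℚ) * c1' - (4 * (-4) ^ m) * c2

/-- the basic sum -/
theorem c0 (h3 : 3 < p) : EQ p 1 (∑ m ∈ range p, w m * 2 ^ m) ((-1) ^ (p / 2)) := by
  obtain ⟨n, hn⟩ : ∃ n, 2 * n + 1 = p := by
    rcases hp.out.eq_two_or_odd with h | h
    · omega
    · exact ⟨p / 2, by omega⟩
  have hn2 : p / 2 = n := by omega
  have h1 : EQ p 1 (∑ m ∈ range p, w m * 2 ^ m) (∑ m ∈ range p, (-2) ^ m * (n.choose m : ℚ)) := by
    refine EQ.sum fun m hm => ?_
    have h2 := cb h3 hn (mem_range.1 hm)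
    have hu : ((2 : ℚ) ^ m)⁻¹ ∈ Zp p := ((u2 (p := p) (by omega)).pow m).2.2
    have h4 := (EQ.refl (p := p) (k := 1) hu).mul h2
    have e1 : w m * 2 ^ m = ((2 : ℚ) ^ m)⁻¹ * ((2 * m).choose m : ℚ) := by
      rw [choose_diag]
      have : ((4 : ℚ)) ^ m = 2 ^ m * 2 ^ m := by rw [← mul_pow]; norm_num
      rw [this]
      have h20 : (2 : ℚ) ^ m ≠ 0 := by positivity
      field_simp
    have e2 : ((-2 : ℚ)) ^ m * (n.choose m : ℚ) = ((2 : ℚ) ^ m)⁻¹ * ((-4) ^ m * (n.choose m : ℚ)) := by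
      have : ((-4 : ℚ)) ^ m = 2 ^ m * (-2) ^ m := by rw [← mul_pow]; norm_num
      rw [this]
      have h20 : (2 : ℚ) ^ m ≠ 0 := by positivity
      field_simp
    rw [e1, e2]
    exact h4
  have h2 : ∑ m ∈ range p, (-2 : ℚ) ^ m * (n.choose m : ℚ) = (-1) ^ n := by
    have h5 := add_pow (-2 : ℚ) 1 n
    have h6 : ∑ m ∈ range p, (-2 : ℚ) ^ m * (n.choose m : ℚ) =
        ∑ m ∈ range (n + 1), (-2 : ℚ) ^ m * (n.choose m : ℚ) := by
      symm
      refine sum_subset (range_subset_range.2 (by omega)) fun m _ hm => ?_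
      rw [mem_range, not_lt] at hm
      rw [Nat.choose_eq_zero_of_lt (by omega)]
      simp
    rw [h6]
    simp only [one_pow, mul_one] at h5
    rw [← h5]
    norm_num
  rw [h2, ← hn2] at h1
  exact h1

/-- `w(p+j) ≡ w(j)/2` -/
theorem w_add (h3 : 3 < p) (c : ℕ) {j : ℕ} (hj : j < p) : EQ p 1 (w (c * p + j))
    (((2 * c).choose c : ℚ) / 4 ^ c * w j) := by
  have h1 := cent (p := p) c j hj
  have h4 : EQ p 1 ((4 : ℚ) ^ p) 4 := by
    have := fermat' (p := p) 4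
    push_cast at this
    exact this
  have h5 : EQ p 1 ((4 : ℚ) ^ (c * p + j)) (4 ^ c * 4 ^ j) := by
    have h6 := (h4.pow c).mul (EQ.refl (p := p) (k := 1) (pow_mem (nm (p := p) 4) j))
    have e : (4 : ℚ) ^ (c * p + j) = ((4 : ℚ) ^ p) ^ c * 4 ^ j := by
      rw [pow_add, mul_comm c p, pow_mul]
    rw [e]
    exact h6
  have hU : U p ((4 : ℚ) ^ (c * p + j)) := (u4 h3).pow _
  have hU2 : U p ((4 : ℚ) ^ c * 4 ^ j) := ((u4 h3).pow _).mul ((u4 h3).pow _)
  have h6 := h1.div one_pos h5 hU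
  have e1 : w (c * p + j) = ((2 * (c * p + j)).choose (c * p + j) : ℚ) / 4 ^ (c * p + j) := by
    unfold w
    rw [Nat.centralBinom_eq_two_mul_choose]
  have e2 : ((2 * c).choose c : ℚ) / 4 ^ c * w j =
      ((2 * c).choose c : ℚ) * ((2 * j).choose j : ℚ) / (4 ^ c * 4 ^ j) := by
    unfold w
    rw [Nat.centralBinom_eq_two_mul_choose, div_mul_div_comm]
  rw [e1, e2]
  exact h6

/-- `C(ap+p-1, bp+m) ≡ C(a,b) (-1)^m` -/
theorem binl (a b : ℕ) {m : ℕ} (hm : m < p) :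
    EQ p 1 ((a * p + (p - 1)).choose (b * p + m) : ℚ) ((a.choose b : ℚ) * (-1) ^ m) := by
  have hp0 := hp.out.pos
  exact (lucas (p := p) a b (p - 1) m (by omega) hm).trans
    ((EQ.refl (p := p) (k := 1) (nat_mem _)).mul (bin1 hm))

theorem TT_one (h3 : 3 < p) : EQ p 1 (TT p) ((-1) ^ (p / 2)) := by
  refine EQ.trans ?_ (c0 h3)
  unfold TT
  refine EQ.sum fun m hm => ?_
  have hm' := mem_range.1 hm
  have h1 := binl (p := p) 1 0 hm'
  rw [show 1 * p + (p - 1) = 2 * p - 1 by omega, zero_mul, zero_add, Nat.choose_zero_right,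
    Nat.cast_one, one_mul] at h1
  have h2 := (EQ.refl (p := p) (k := 1) (mul_mem (w_mem h3 m) (pow_mem (neg_mem (nm 2)) m))).mul h1
  have e : w m * (-2) ^ m * (-1) ^ m = w m * 2 ^ m := by
    rw [mul_assoc, ← mul_pow]
    norm_num
  rw [e] at h2
  exact h2

theorem TT_two (h3 : 3 < p) : EQ p 1 (TT (2 * p)) (-2 * (-1) ^ (p / 2)) := by
  have hp0 := hp.out.pos
  have hsplit : TT (2 * p) = ∑ m ∈ range p, w m * (-2) ^ m * ((2 * (2 * p) - 1).choose m : ℚ) +
      ∑ j ∈ range p, w (p + j) * (-2) ^ (p + j) * ((2 * (2 * p) - 1).choose (p + j) : ℚ) := by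
    unfold TT
    rw [two_mul p, sum_range_add]
  have hA : EQ p 1 (∑ m ∈ range p, w m * (-2) ^ m * ((2 * (2 * p) - 1).choose m : ℚ))
      ((-1) ^ (p / 2)) := by
    refine EQ.trans ?_ (c0 h3)
    refine EQ.sum fun m hm => ?_
    have hm' := mem_range.1 hm
    have h1 := binl (p := p) 3 0 hm'
    rw [show 3 * p + (p - 1) = 2 * (2 * p) - 1 by omega, zero_mul, zero_add,
      Nat.choose_zero_right, Nat.cast_one, one_mul] at h1
    have h2 := (EQ.refl (p := p) (k := 1) (mul_mem (w_mem h3 m)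
      (pow_mem (neg_mem (nm 2)) m))).mul h1
    have e : w m * (-2) ^ m * (-1) ^ m = w m * 2 ^ m := by
      rw [mul_assoc, ← mul_pow]
      norm_num
    rw [e] at h2
    exact h2
  have h2p : EQ p 1 ((-2 : ℚ) ^ p) (-2) := by
    have := fermat' (p := p) (-2)
    push_cast at this
    exact this
  have hB : EQ p 1 (∑ j ∈ range p, w (p + j) * (-2) ^ (p + j) *
      ((2 * (2 * p) - 1).choose (p + j) : ℚ)) (-3 * (-1) ^ (p / 2)) := by
    have hc : EQ p 1 (-3 * ∑ j ∈ range p, w j * 2 ^ j) (-3 * (-1) ^ (p / 2)) :=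
      (EQ.refl (p := p) (k := 1) (neg_mem (nm 3))).mul (c0 h3)
    refine EQ.trans ?_ hc
    rw [mul_sum]
    refine EQ.sum fun j hj => ?_
    have hj' := mem_range.1 hj
    have h1 := binl (p := p) 3 1 hj'
    rw [show 3 * p + (p - 1) = 2 * (2 * p) - 1 by omega, one_mul] at h1
    have h4 := w_add h3 1 hj'
    rw [one_mul] at h4
    have h5 : EQ p 1 ((-2 : ℚ) ^ (p + j)) (-2 * (-2) ^ j) := by
      rw [pow_add]
      exact h2p.mul (EQ.refl (pow_mem (neg_mem (nm 2)) j))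
    have h6 := (h4.mul h5).mul h1
    have e : ((2 * 1).choose 1 : ℚ) / 4 ^ 1 * w j * (-2 * (-2) ^ j) *
        (((3 : ℕ).choose 1 : ℚ) * (-1) ^ j) = -3 * (w j * 2 ^ j) := by
      have e1 : ((-2 : ℚ)) ^ j * (-1) ^ j = 2 ^ j := by
        rw [← mul_pow]
        norm_num
      have e2 : ((2 * 1 : ℕ).choose 1 : ℚ) = 2 := by norm_num
      have e3 : ((3 : ℕ).choose 1 : ℚ) = 3 := by norm_num
      rw [e2, e3, ← e1]
      ring
    rw [e] at h6
    exact h6
  rw [hsplit]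
  have h7 := hA.add hB
  have e : (-1 : ℚ) ^ (p / 2) + -3 * (-1) ^ (p / 2) = -2 * (-1) ^ (p / 2) := by ring
  rw [e] at h7
  exact h7

theorem c : S_c := by
  intro p _ h3
  have hp0 : 0 < p := by omega
  have hw0 : w 0 = 1 := w_zero
  constructor
  · rw [exact_id]
    have h1 := w_add (p := p) h3 1 hp0
    rw [one_mul, add_zero, hw0] at h1
    have h2 := ((EQ.refl (p := p) (k := 1) (nm (p := p) 2)).mul h1).mul (TT_one h3)
    have e1 : (2 : ℚ) * (((2 * 1).choose 1 : ℚ) / 4 ^ 1 * 1) * (-1) ^ (p / 2) =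
        (-1) ^ (p / 2) := by
      have e2 : ((2 * 1 : ℕ).choose 1 : ℚ) = 2 := by norm_num
      rw [e2]
      norm_num
    rw [e1] at h2
    exact icg (up h2) (by ring)
  · rw [exact_id]
    have h1 := w_add (p := p) h3 2 hp0
    rw [add_zero, hw0] at h1
    have h2 := ((EQ.refl (p := p) (k := 1) (nm (p := p) 4)).mul h1).mul (TT_two h3)
    have e1 : (4 : ℚ) * (((2 * 2).choose 2 : ℚ) / 4 ^ 2 * 1) * (-2 * (-1) ^ (p / 2)) =
        -3 * (-1) ^ (p / 2) := by
      have e2 : ((2 * 2 : ℕ).choose 2 : ℚ) = 6 := by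
        have : (2 * 2 : ℕ).choose 2 = 6 := by decide
        rw [this]
        norm_num
      rw [e2]
      ring
    rw [e1] at h2
    refine icg (up h2) ?_
    push_cast
    ring

end Pool.Agent.H980.C9.C
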