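import Pool.Agent.H980.C9.Com
import Pool.Graph.R_seed8.Results.MP_6a8d80_nt.Integrality

set_option autoImplicit false
set_option linter.unusedSectionVars false

/-!
# `S_f` (helper980; the exact identity is the one of the library module on MP_6a8d80)
-/

namespace Pool.Agent.H980.C9.F

open Finset Pool.Agent.R439.PL Pool.Agent.H547 Pool.Agent.H547.C9 Pool.Agent.H980.C9
open Pool.Agent.Results.MP_6a8d80_nt.Integrality Pool.Agent.R312.WZ
open scoped Nat

/-- the product of the `(n+i)/(2n+i)` -/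
def R (n k : ℕ) : ℚ := ∏ i ∈ range k, ((n : ℚ) + i + 1) / (2 * n + i + 1)

theorem R_fact (n k : ℕ) : R n k * ((n ! : ℚ) * ((2 * n + k)! : ℚ)) =
    ((n + k)! : ℚ) * ((2 * n)! : ℚ) := by
  induction k with
  | zero => unfold R; simp
  | succ k ih =>
    have h1 : R n (k + 1) = R n k * (((n : ℚ) + k + 1) / (2 * n + k + 1)) := by
      unfold R
      rw [prod_range_succ]
    have h2 : ((2 * n + (k + 1))! : ℚ) = (2 * n + k + 1) * ((2 * n + k)! : ℚ) := by
      rw [← add_assoc, Nat.factorial_succ]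
      push_cast
      rfl
    have h3 : ((n + (k + 1))! : ℚ) = (n + k + 1) * ((n + k)! : ℚ) := by
      rw [← add_assoc, Nat.factorial_succ]
      push_cast
      rfl
    have h4 : (2 * (n : ℚ) + k + 1) ≠ 0 := by positivity
    rw [h1, h2, h3]
    field_simp
    linear_combination ih

theorem T_bin (n k : ℕ) (hk : k < n) : T n k = n * (((3 * n).choose n : ℚ) / 6) * R n k *
    ((-3) ^ k * (((2 * (n - 1 - k)).choose (n - 1 - k) : ℚ) *
      ((2 * (n + k)).choose (n + k) : ℚ))) := by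
  unfold T
  rw [if_pos hk, show n - k - 1 = n - 1 - k by omega, show 2 * n + 2 * k = 2 * (n + k) by ring]
  have f2 : ∀ m : ℕ, ((2 * m).choose m : ℚ) = ((2 * m)! : ℚ) / ((m ! : ℚ) * (m ! : ℚ)) := by
    intro m
    rw [Nat.cast_choose ℚ (by omega : m ≤ 2 * m), show 2 * m - m = m by omega]
  have f3 : ((3 * n).choose n : ℚ) = ((3 * n)! : ℚ) / ((n ! : ℚ) * ((2 * n)! : ℚ)) := by
    rw [Nat.cast_choose ℚ (by omega : n ≤ 3 * n), show 3 * n - n = 2 * n by omega]
  have hR := R_fact n k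
  have z : ∀ m : ℕ, (m ! : ℚ) ≠ 0 := fun m => by exact_mod_cast (Nat.factorial_pos m).ne'
  have hR' : R n k = ((n + k)! : ℚ) * ((2 * n)! : ℚ) / ((n ! : ℚ) * ((2 * n + k)! : ℚ)) := by
    rw [eq_div_iff (mul_ne_zero (z _) (z _))]
    exact hR
  have h4 : (n ! : ℚ) = n * ((n - 1)! : ℚ) := by
    rw [show n = n - 1 + 1 by omega, Nat.factorial_succ, show n - 1 + 1 - 1 = n - 1 by omega]
    push_cast
    rfl
  have hn : (n : ℚ) ≠ 0 := by
    have : n ≠ 0 := by omega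
    exact_mod_cast this
  rw [f2, f2, f3, hR']
  have z1 := z (n - 1)
  have z2 := z (n + k)
  have z3 := z (n - 1 - k)
  have z4 := z (2 * n + k)
  have z5 := z (2 * n)
  have z6 := z n
  rw [h4]
  field_simp

/-- the exact identity -/
theorem exact_id (n : ℕ) (hn : 0 < n) : (-192 : ℚ) ^ (n - 1) * SV 5 1 (-1 / 192) n =
    ∑ k ∈ range n, T n k := by
  have h := wz_sum (-192) T Φ wz T_diag Φ_diag n
  rw [h]
  unfold SV
  rw [mul_sum]
  refine sum_congr rfl fun k hk => ?_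
  have hk' := mem_range.1 hk
  rw [Φ_zero, Nat.centralBinom_eq_two_mul_choose]
  have e : (-192 : ℚ) ^ (n - 1) = (-192) ^ (n - 1 - k) * (-192) ^ k := by
    rw [← pow_add]
    congr 1
    omega
  have e2 : (-192 : ℚ) ^ k * (-1 / 192) ^ k = 1 := by
    rw [← mul_pow]
    norm_num
  rw [e]
  linear_combination ((-192 : ℚ) ^ (n - 1 - k) * ((5 * k + 1) * (((2 * k).choose k : ℚ) ^ 2 *
    ((3 * k).choose k : ℚ)))) * e2

variable {p : ℕ} [hp : Fact p.Prime]

theorem u192 (h3 : 3 < p) : U p (-192 : ℚ) := by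
  have h := ((u2 (p := p) (by omega)).pow 6).mul (u3 (p := p) h3)
  have e : (2 : ℚ) ^ 6 * 3 = 192 := by norm_num
  rw [e] at h
  exact ⟨neg_ne_zero.2 h.1, neg_mem h.2.1, by rw [inv_neg]; exact neg_mem h.2.2⟩

theorem leg1 : legendreSym 3 ((1 : ℕ) : ℤ) = 1 := by decide

theorem leg2 : legendreSym 3 ((2 : ℕ) : ℤ) = -1 := by decide

/-- `(-3)^((p-1)/2) ≡ (p/3)` -/
theorem euler (h3 : 3 < p) : EQ p 1 ((-3 : ℚ) ^ (p / 2)) (if p % 3 = 1 then 1 else -1) := by
  have hp2 : p ≠ 2 := by omega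
  have hp3 : p ≠ 3 := by omega
  have h1 := legendreSym.eq_pow p (-3)
  have e3 : legendreSym p (-3) = legendreSym 3 p := by
    have e1 : (-3 : ℤ) = -1 * ((3 : ℕ) : ℤ) := by norm_num
    rw [e1, legendreSym.mul, legendreSym.quadratic_reciprocity' hp2 (by norm_num : (3 : ℕ) ≠ 2),
      legendreSym.at_neg_one hp2, ZMod.χ₄_eq_neg_one_pow
        (by rcases hp.out.eq_two_or_odd with h | h; exact absurd h hp2; exact h)]
    norm_num
  have e4 : legendreSym 3 p = if p % 3 = 1 then 1 else -1 := by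
    have h5 : p % 3 = 1 ∨ p % 3 = 2 := by
      have h6 : p % 3 ≠ 0 := by
        intro h
        have := (Nat.prime_dvd_prime_iff_eq Nat.prime_three hp.out).1 (Nat.dvd_of_mod_eq_zero h)
        omega
      omega
    rw [legendreSym.mod]
    have h7 : ((p : ℤ) % ((3 : ℕ) : ℤ)) = ((p % 3 : ℕ) : ℤ) := by push_cast; rfl
    rw [h7]
    rcases h5 with h | h
    · rw [h, if_pos rfl]
      exact leg1
    · rw [h, if_neg (by norm_num)]
      exact leg2
  rw [e3, e4] at h1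
  have h8 : ((((-3 : ℤ)) ^ (p / 2) : ℤ) : ZMod p) = (((if p % 3 = 1 then 1 else -1 : ℤ)) : ZMod p) := by
    rw [h1]
    push_cast
    rfl
  have h9 := eqZ h8
  have e5 : ((if p % 3 = 1 then 1 else -1 : ℤ) : ℚ) = if p % 3 = 1 then 1 else -1 := by
    split_ifs <;> norm_num
  rw [e5] at h9
  push_cast at h9
  exact h9

/-- only the middle term of the convolution is a unit -/
theorem conv (h3 : 3 < p) : EQ p 1 (∑ k ∈ range p, (-3 : ℚ) ^ k *
    (((2 * (p - 1 - k)).choose (p - 1 - k) : ℚ) * ((2 * k).choose k : ℚ)))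
    (if p % 3 = 1 then 1 else -1) := by
  refine EQ.trans ?_ (euler h3)
  have hodd : p % 2 = 1 := by
    rcases hp.out.eq_two_or_odd with h | h
    · omega
    · exact h
  have hsum : ∑ k ∈ range p, (if k = p / 2 then (-3 : ℚ) ^ (p / 2) else 0) = (-3) ^ (p / 2) := by
    rw [sum_ite_eq' (range p) (p / 2), if_pos (mem_range.2 (by omega))]
  rw [← hsum]
  refine EQ.sum fun k hk => ?_
  have hk' := mem_range.1 hk
  have m3 : (-3 : ℚ) ^ k ∈ Zp p := pow_mem (neg_mem (nm 3)) k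
  by_cases h : k = p / 2
  · rw [if_pos h, h]
    have hb := bin1 (p := p) (k := p / 2) (by omega)
    have e1 : p - 1 - p / 2 = p / 2 := by omega
    have e2 : 2 * (p / 2) = p - 1 := by omega
    rw [e1, e2]
    have h4 := (EQ.refl (p := p) (k := 1) (pow_mem (neg_mem (nm (p := p) 3)) (p / 2))).mul (hb.mul hb)
    have e3 : (-3 : ℚ) ^ (p / 2) * ((-1) ^ (p / 2) * (-1) ^ (p / 2)) = (-3) ^ (p / 2) := by
      rw [← mul_pow]
      norm_num
    rw [e3] at h4
    exact h4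
  · rw [if_neg h]
    rcases lt_or_gt_of_ne h with h5 | h5
    · have h6 := cent_big (p := p) (j := p - 1 - k) (by omega) (by omega)
      have h7 := (EQ.refl (p := p) (k := 1) m3).mul (h6.mul (EQ.refl (nat_mem ((2 * k).choose k))))
      rw [zero_mul, mul_zero] at h7
      exact h7
    · have h6 := cent_big (p := p) (j := k) (by omega) (by omega)
      have h7 := (EQ.refl (p := p) (k := 1) m3).mul
        ((EQ.refl (nat_mem ((2 * (p - 1 - k)).choose (p - 1 - k)))).mul h6)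
      rw [mul_zero, mul_zero] at h7
      exact h7

/-- `R(cp, k) ≡ 1` for `k < p` -/
theorem ratio (c : ℕ) {i : ℕ} (hi : i + 1 < p) :
    EQ p 1 (((c * p : ℕ) : ℚ) + i + 1) ((i : ℚ) + 1) := by
  refine ⟨?_, ?_, (c : ℚ), nat_mem c, ?_⟩
  · exact add_mem (add_mem (nat_mem _) (nat_mem _)) (one_mem _)
  · exact add_mem (nat_mem _) (one_mem _)
  · push_cast
    ring

theorem quo (a b : ℕ) {i : ℕ} (hi : i + 1 < p) :
    EQ p 1 ((((a * p : ℕ) : ℚ) + i + 1) / (((b * p : ℕ) : ℚ) + i + 1)) 1 := by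
  have hu : U p ((i : ℚ) + 1) := uSucc (n := p - 1) (by omega) (by omega)
  have h2 := ratio (p := p) b hi
  have hu2 : U p ((((b * p : ℕ) : ℚ) + i + 1)) := (h2.symm).unit one_pos hu
  have h3 := (ratio (p := p) a hi).div one_pos h2 hu2
  rw [div_self hu.1] at h3
  exact h3

theorem R_lt (c : ℕ) {k : ℕ} (hk : k < p) : EQ p 1 (R (c * p) k) 1 := by
  unfold R
  have h : EQ p 1 (∏ i ∈ range k, (((c * p : ℕ) : ℚ) + i + 1) / (2 * ((c * p : ℕ) : ℚ) + i + 1))
      (∏ i ∈ range k, (1 : ℚ)) := by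
    refine EQ.prod fun i hi => ?_
    have hi' := mem_range.1 hi
    have h1 := quo (p := p) c (2 * c) (i := i) (by omega)
    have e : ((2 * c * p : ℕ) : ℚ) = 2 * ((c * p : ℕ) : ℚ) := by push_cast; ring
    rw [e] at h1
    exact h1
  rw [prod_const_one] at h
  exact h

/-- `R(2p, p + j) ≡ 3/5` -/
theorem R_ge (h5 : 5 < p) {j : ℕ} (hj : j < p) : EQ p 1 (R (2 * p) (p + j)) (3 / 5) := by
  have hp0 := hp.out.pos
  have hsplit : R (2 * p) (p + j) = (∏ i ∈ range (p - 1), (((2 * p : ℕ) : ℚ) + i + 1) /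
      (2 * ((2 * p : ℕ) : ℚ) + i + 1)) * (3 / 5) *
      ∏ i ∈ range j, (((3 * p : ℕ) : ℚ) + i + 1) / (((5 * p : ℕ) : ℚ) + i + 1) := by
    unfold R
    rw [prod_range_add]
    have e1 : ∏ i ∈ range p, (((2 * p : ℕ) : ℚ) + i + 1) / (2 * ((2 * p : ℕ) : ℚ) + i + 1) =
        (∏ i ∈ range (p - 1), (((2 * p : ℕ) : ℚ) + i + 1) /
      (2 * ((2 * p : ℕ) : ℚ) + i + 1)) * (3 / 5) := by
      have e2 : p = p - 1 + 1 := by omega
      have hpq : (p : ℚ) ≠ 0 := by exact_mod_cast hp0.ne'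
      have e4 : ((p - 1 : ℕ) : ℚ) = p - 1 := by
        rw [Nat.cast_sub hp0]; push_cast; rfl
      have e3 : ∏ i ∈ range p, (((2 * p : ℕ) : ℚ) + i + 1) / (2 * ((2 * p : ℕ) : ℚ) + i + 1) =
          ∏ i ∈ range (p - 1 + 1), (((2 * p : ℕ) : ℚ) + i + 1) /
            (2 * ((2 * p : ℕ) : ℚ) + i + 1) := by rw [← e2]
      rw [e3, prod_range_succ, e4]
      congr 1
      have e5 : ((2 * p : ℕ) : ℚ) + ((p : ℚ) - 1) + 1 = 3 * p := by push_cast; ring
      have e6 : 2 * ((2 * p : ℕ) : ℚ) + ((p : ℚ) - 1) + 1 = 5 * p := by push_cast; ring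
      rw [e5, e6, mul_div_mul_right _ _ hpq]
    rw [e1]
    congr 1
    refine prod_congr rfl fun i _ => ?_
    push_cast
    congr 1 <;> ring
  rw [hsplit]
  have h35 : (3 / 5 : ℚ) ∈ Zp p := by
    have hu5 : U p (5 : ℚ) := by exact_mod_cast uNat (p := p) (k := 5) (by omega) h5
    exact dmem (nm 3) hu5
  have hA : EQ p 1 (∏ i ∈ range (p - 1), (((2 * p : ℕ) : ℚ) + i + 1) /
      (2 * ((2 * p : ℕ) : ℚ) + i + 1)) 1 := R_lt (p := p) 2 (by omega)
  have hB : EQ p 1 (∏ i ∈ range j, (((3 * p : ℕ) : ℚ) + i + 1) / (((5 * p : ℕ) : ℚ) + i + 1))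
      (∏ i ∈ range j, (1 : ℚ)) :=
    EQ.prod fun i hi => quo (p := p) 3 5 (by have := mem_range.1 hi; omega)
  rw [prod_const_one] at hB
  have h := (hA.mul (EQ.refl (p := p) (k := 1) h35)).mul hB
  rw [one_mul, mul_one] at h
  exact h

theorem chi_mem : ((if p % 3 = 1 then 1 else -1 : ℚ)) ∈ Zp p := by
  split_ifs
  · exact one_mem _
  · exact neg_mem (one_mem _)

theorem six (h3 : 3 < p) : U p (6 : ℚ) := by
  have h := (u2 (p := p) (by omega)).mul (u3 (p := p) h3)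
  have e : (2 : ℚ) * 3 = 6 := by norm_num
  rwa [e] at h

theorem f_one (h3 : 3 < p) : I p 2 (SV 5 1 (-1 / 192) p - (if p % 3 = 1 then 1 else -1) * p) := by
  have hp0 := hp.out.pos
  have hid := exact_id p hp0
  obtain ⟨X, hX⟩ : ∃ X : ℚ, X = ∑ k ∈ range p, ((3 * p).choose p : ℚ) / 6 * R p k *
      ((-3) ^ k * (((2 * (p - 1 - k)).choose (p - 1 - k) : ℚ) *
        ((2 * (p + k)).choose (p + k) : ℚ))) := ⟨_, rfl⟩
  have hT : ∑ k ∈ range p, T p k = p * X := by
    rw [hX, mul_sum]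
    refine sum_congr rfl fun k hk => ?_
    rw [T_bin p k (mem_range.1 hk)]
    ring
  obtain ⟨χ, hχ⟩ : ∃ χ : ℚ, χ = if p % 3 = 1 then 1 else -1 := ⟨_, rfl⟩
  have hχm : χ ∈ Zp p := by rw [hχ]; exact chi_mem
  have h3p : EQ p 1 (((3 * p).choose p : ℚ) / 6) (1 / 2) := by
    have h1 := lucas (p := p) 3 1 0 0 hp0 hp0
    rw [add_zero, add_zero, one_mul] at h1
    have h2 := h1.div one_pos (EQ.refl (six h3).2.1) (six h3)
    have e : ((3 : ℕ).choose 1 : ℚ) * ((0 : ℕ).choose 0 : ℚ) / 6 = 1 / 2 := by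
      have e1 : ((3 : ℕ).choose 1 : ℚ) = 3 := by norm_num
      rw [e1]
      norm_num
    rw [e] at h2
    exact h2
  have hXE : EQ p 1 X χ := by
    rw [hχ]
    refine EQ.trans ?_ (conv h3)
    rw [hX]
    refine EQ.sum fun k hk => ?_
    have hk' := mem_range.1 hk
    have h1 := R_lt (p := p) 1 hk'
    rw [one_mul] at h1
    have h2 := cent (p := p) 1 k hk'
    rw [one_mul] at h2
    have m3 : EQ p 1 ((-3 : ℚ) ^ k) ((-3) ^ k) := EQ.refl (pow_mem (neg_mem (nm 3)) k)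
    have m4 : EQ p 1 ((2 * (p - 1 - k)).choose (p - 1 - k) : ℚ)
      ((2 * (p - 1 - k)).choose (p - 1 - k) : ℚ) := EQ.refl (nat_mem _)
    have h5 := (h3p.mul h1).mul (m3.mul (m4.mul h2))
    have e : (1 / 2 : ℚ) * 1 * ((-3) ^ k * (((2 * (p - 1 - k)).choose (p - 1 - k) : ℚ) *
        (((2 * 1).choose 1 : ℚ) * ((2 * k).choose k : ℚ)))) =
        (-3 : ℚ) ^ k * (((2 * (p - 1 - k)).choose (p - 1 - k) : ℚ) * ((2 * k).choose k : ℚ)) := by
      have e1 : ((2 * 1 : ℕ).choose 1 : ℚ) = 2 := by norm_num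
      rw [e1]
      ring
    rw [e] at h5
    exact h5
  have hu : U p ((-192 : ℚ) ^ (p - 1)) := (u192 h3).pow _
  have hu1 : EQ p 1 ((-192 : ℚ) ^ (p - 1)) 1 := by
    have hnd : ¬ (p : ℤ) ∣ (-192 : ℤ) := by
      intro h
      have h1 : (p : ℤ) ∣ 192 := (dvd_neg.1 h)
      have h2 : p ∣ 192 := by exact_mod_cast h1
      have h4 : p ∣ 2 ^ 6 * 3 := by norm_num; exact h2
      rcases (Nat.Prime.dvd_mul hp.out).1 h4 with h5 | h5
      · have := (Nat.prime_dvd_prime_iff_eq hp.out Nat.prime_two).1 (hp.out.dvd_of_dvd_pow h5)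
        omega
      · have := (Nat.prime_dvd_prime_iff_eq hp.out Nat.prime_three).1 h5
        omega
    have := fermat (p := p) hnd
    push_cast at this
    exact this
  have hχu : EQ p 1 X ((-192 : ℚ) ^ (p - 1) * χ) := by
    have h1 := hu1.mul (EQ.refl (p := p) (k := 1) hχm)
    rw [one_mul] at h1
    exact hXE.trans h1.symm
  rw [← hχ]
  apply hu.cancel
  refine icg (up hχu) ?_
  rw [← hT, ← hid]
  ring

theorem f_two (h5 : 5 < p) :
    I p 2 (SV 5 1 (-1 / 192) (2 * p) - 5 / 8 * (if p % 3 = 1 then 1 else -1) * p) := by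
  have h3 : 3 < p := by omega
  have hp0 := hp.out.pos
  have hid := exact_id (2 * p) (by omega)
  obtain ⟨Y, hY⟩ : ∃ Y : ℚ, Y = ∑ k ∈ range p, 2 * (((3 * (2 * p)).choose (2 * p) : ℚ) / 6) *
      R (2 * p) k * ((-3) ^ k * (((2 * (2 * p - 1 - k)).choose (2 * p - 1 - k) : ℚ) *
        ((2 * (2 * p + k)).choose (2 * p + k) : ℚ))) := ⟨_, rfl⟩
  obtain ⟨Z, hZ⟩ : ∃ Z : ℚ, Z = ∑ j ∈ range p, 2 * (((3 * (2 * p)).choose (2 * p) : ℚ) / 6) *
      R (2 * p) (p + j) * ((-3) ^ (p + j) *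
        (((2 * (2 * p - 1 - (p + j))).choose (2 * p - 1 - (p + j)) : ℚ) *
        ((2 * (2 * p + (p + j))).choose (2 * p + (p + j)) : ℚ))) := ⟨_, rfl⟩
  have hT : ∑ k ∈ range (2 * p), T (2 * p) k = p * (Y + Z) := by
    have e : range (2 * p) = range (p + p) := by rw [two_mul]
    rw [e, sum_range_add, mul_add, hY, hZ, mul_sum, mul_sum]
    congr 1
    · refine sum_congr rfl fun k hk => ?_
      rw [T_bin (2 * p) k (by have := mem_range.1 hk; omega)]
      push_cast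
      ring
    · refine sum_congr rfl fun k hk => ?_
      rw [T_bin (2 * p) (p + k) (by have := mem_range.1 hk; omega)]
      push_cast
      ring
  obtain ⟨χ, hχ⟩ : ∃ χ : ℚ, χ = if p % 3 = 1 then 1 else -1 := ⟨_, rfl⟩
  have hχm : χ ∈ Zp p := by rw [hχ]; exact chi_mem
  have hcv := conv (p := p) h3
  rw [← hχ] at hcv
  have h6p : EQ p 1 (2 * (((3 * (2 * p)).choose (2 * p) : ℚ) / 6)) 5 := by
    have h1 := lucas (p := p) 6 2 0 0 hp0 hp0
    rw [add_zero, add_zero, show 6 * p = 3 * (2 * p) by ring] at h1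
    have h2 := (EQ.refl (p := p) (k := 1) (nm (p := p) 2)).mul
      (h1.div one_pos (EQ.refl (six h3).2.1) (six h3))
    have e : (2 : ℚ) * (((6 : ℕ).choose 2 : ℚ) * ((0 : ℕ).choose 0 : ℚ) / 6) = 5 := by
      have e1 : (6 : ℕ).choose 2 = 15 := by decide
      rw [e1]
      norm_num
    rw [e] at h2
    exact h2
  have hYE : EQ p 1 Y (60 * χ) := by
    have h1 := (EQ.refl (p := p) (k := 1) (nm (p := p) 60)).mul hcv
    refine EQ.trans ?_ h1
    rw [hY, mul_sum]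
    refine EQ.sum fun k hk => ?_
    have hk' := mem_range.1 hk
    have h2 := R_lt (p := p) 2 hk'
    have h4 := cent (p := p) 2 k hk'
    have h5' := cent (p := p) 1 (p - 1 - k) (by omega)
    rw [show 1 * p + (p - 1 - k) = 2 * p - 1 - k by omega] at h5'
    have m3 : EQ p 1 ((-3 : ℚ) ^ k) ((-3) ^ k) := EQ.refl (pow_mem (neg_mem (nm 3)) k)
    have h6 := (h6p.mul h2).mul (m3.mul (h5'.mul h4))
    have e : (5 : ℚ) * 1 * ((-3) ^ k * ((((2 * 1).choose 1 : ℚ) *
        ((2 * (p - 1 - k)).choose (p - 1 - k) : ℚ)) *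
        (((2 * 2).choose 2 : ℚ) * ((2 * k).choose k : ℚ)))) =
        60 * ((-3 : ℚ) ^ k * (((2 * (p - 1 - k)).choose (p - 1 - k) : ℚ) *
          ((2 * k).choose k : ℚ))) := by
      have e1 : (2 * 1 : ℕ).choose 1 = 2 := by decide
      have e2 : (2 * 2 : ℕ).choose 2 = 6 := by decide
      rw [e1, e2]
      push_cast
      ring
    rw [e] at h6
    exact h6
  have hZE : EQ p 1 Z (-180 * χ) := by
    have h1 := (EQ.refl (p := p) (k := 1) (neg_mem (nm (p := p) 180))).mul hcv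
    refine EQ.trans ?_ h1
    rw [hZ, mul_sum]
    refine EQ.sum fun j hj => ?_
    have hj' := mem_range.1 hj
    have h2 := R_ge (p := p) h5 hj'
    have h4 := cent (p := p) 3 j hj'
    rw [show 3 * p + j = 2 * p + (p + j) by ring] at h4
    have h3p : EQ p 1 ((-3 : ℚ) ^ p) (-3) := by
      have := fermat' (p := p) (-3)
      push_cast at this
      exact this
    have m3 : EQ p 1 ((-3 : ℚ) ^ (p + j)) (-3 * (-3) ^ j) := by
      rw [pow_add]
      exact h3p.mul (EQ.refl (pow_mem (neg_mem (nm 3)) j))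
    have m4 : EQ p 1 ((2 * (2 * p - 1 - (p + j))).choose (2 * p - 1 - (p + j)) : ℚ)
        ((2 * (p - 1 - j)).choose (p - 1 - j) : ℚ) := by
      rw [show 2 * p - 1 - (p + j) = p - 1 - j by omega]
      exact EQ.refl (nat_mem _)
    have h6 := (h6p.mul h2).mul (m3.mul (m4.mul h4))
    have e : (5 : ℚ) * (3 / 5) * (-3 * (-3) ^ j * (((2 * (p - 1 - j)).choose (p - 1 - j) : ℚ) *
        (((2 * 3).choose 3 : ℚ) * ((2 * j).choose j : ℚ)))) =
        -180 * ((-3 : ℚ) ^ j * (((2 * (p - 1 - j)).choose (p - 1 - j) : ℚ) *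
          ((2 * j).choose j : ℚ))) := by
      have e2 : (2 * 3 : ℕ).choose 3 = 20 := by decide
      rw [e2]
      push_cast
      ring
    rw [e] at h6
    exact h6
  have hu : U p ((-192 : ℚ) ^ (2 * p - 1)) := (u192 h3).pow _
  have hu1 : EQ p 1 ((-192 : ℚ) ^ (2 * p - 1)) (-192) := by
    have hu0 : U p (-192 : ℚ) := u192 h3
    have h1 : EQ p 1 ((-192 : ℚ) ^ p) (-192) := by
      have := fermat' (p := p) (-192)
      push_cast at this
      exact this
    have h2 := (h1.mul h1).mul (EQ.refl (p := p) (k := 1) hu0.2.2)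
    have e1 : (-192 : ℚ) ^ p * (-192) ^ p * (-192)⁻¹ = (-192) ^ (2 * p - 1) := by
      rw [← pow_add, show p + p = 2 * p - 1 + 1 by omega, pow_succ, mul_assoc,
        mul_inv_cancel₀ hu0.1, mul_one]
    have e2 : (-192 : ℚ) * (-192) * (-192)⁻¹ = -192 := by norm_num
    rw [e1, e2] at h2
    exact h2
  have h58 : (5 / 8 : ℚ) ∈ Zp p := by
    have h := (u2 (p := p) (by omega)).pow 3
    have e : (2 : ℚ) ^ 3 = 8 := by norm_num
    rw [e] at h
    exact dmem (nm 5) h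
  have hχu : EQ p 1 (Y + Z) ((-192 : ℚ) ^ (2 * p - 1) * (5 / 8 * χ)) := by
    have h1 := hu1.mul (EQ.refl (p := p) (k := 1) (mul_mem h58 hχm))
    have h2 := hYE.add hZE
    have e : 60 * χ + -180 * χ = -192 * (5 / 8 * χ) := by ring
    rw [e] at h2
    exact h2.trans h1.symm
  rw [← hχ]
  apply hu.cancel
  refine icg (up hχu) ?_
  rw [← hT, ← hid]
  ring

theorem f_five [Fact (Nat.Prime 5)] :
    I 5 2 (SV 5 1 (-1 / 192) (2 * 5) - 5 / 8 * (if 5 % 3 = 1 then 1 else -1) * (5 : ℕ)) := by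
  have hu : U 5 ((-192 : ℚ) ^ 9) := (u192 (p := 5) (by norm_num)).pow 9
  have hS : (-192 : ℚ) ^ 9 * SV 5 1 (-1 / 192) (2 * 5) = ((5 : ℕ) : ℚ) ^ 2 * (-10418974735645091616 : ℤ) := by
    unfold SV
    simp only [Finset.sum_range_succ, Finset.sum_range_zero, Nat.centralBinom_eq_two_mul_choose]
    norm_num [Nat.choose]
  apply hu.cancel
  refine ⟨(-10418974735645091616 : ℤ) + (-192 : ℚ) ^ 9 / 8, ?_, ?_⟩
  · have h := (u2 (p := 5) (by norm_num)).pow 3
    have e : (2 : ℚ) ^ 3 = 8 := by norm_num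
    rw [e] at h
    exact add_mem (int_mem _) (dmem (pow_mem (neg_mem (nm 192)) 9) h)
  · rw [mul_sub, hS]
    norm_num

theorem f : S_f := by
  intro p _ h3
  refine ⟨f_one h3, ?_⟩
  rcases Nat.lt_or_ge 5 p with h | h
  · exact f_two h
  · have h4 : p ≠ 4 := by
      rintro rfl
      exact absurd (Fact.out : Nat.Prime 4) (by norm_num)
    obtain rfl : p = 5 := by omega
    exact f_five

end Pool.Agent.H980.C9.F
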