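import Pool.Agent.H547.C9.Stm

set_option autoImplicit false
set_option linter.unusedSectionVars false

/-!
# Lucas congruences in the calculus of `R439.PL` (helper980)
-/

namespace Pool.Agent.H980.C9

open Finset Pool.Agent.R439.PL Pool.Agent.H547

variable {p : ℕ} [hp : Fact p.Prime]

theorem eqN {a b : ℕ} (h : a ≡ b [MOD p]) : EQ p 1 (a : ℚ) (b : ℚ) := by
  obtain ⟨c, hc⟩ := Nat.modEq_iff_dvd.1 h
  refine ⟨nat_mem _, nat_mem _, ((-c : ℤ) : ℚ), int_mem _, ?_⟩
  have h1 : (((b : ℤ) - (a : ℤ) : ℤ) : ℚ) = (((p : ℤ) * c : ℤ) : ℚ) := by rw [hc]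
  push_cast at h1 ⊢
  linarith

theorem eqZ {a b : ℤ} (h : (a : ZMod p) = b) : EQ p 1 (a : ℚ) (b : ℚ) := by
  obtain ⟨c, hc⟩ := (ZMod.intCast_eq_intCast_iff_dvd_sub a b p).1 h
  refine ⟨int_mem _, int_mem _, ((-c : ℤ) : ℚ), int_mem _, ?_⟩
  have h1 : ((b - a : ℤ) : ℚ) = (((p : ℤ) * c : ℤ) : ℚ) := by rw [hc]
  push_cast at h1 ⊢
  linarith

theorem lucas (a b i j : ℕ) (hi : i < p) (hj : j < p) :
    EQ p 1 ((a * p + i).choose (b * p + j) : ℚ) ((a.choose b : ℚ) * (i.choose j : ℚ)) := by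
  have h := Choose.choose_modEq_choose_mod_mul_choose_div_nat (n := a * p + i) (k := b * p + j)
    (p := p)
  have hp0 : 0 < p := hp.out.pos
  have e : ∀ c d : ℕ, d < p → (c * p + d) % p = d ∧ (c * p + d) / p = c := by
    intro c d hd
    constructor
    · rw [add_comm, Nat.add_mul_mod_self_right, Nat.mod_eq_of_lt hd]
    · rw [add_comm, Nat.add_mul_div_right _ _ hp0, Nat.div_eq_of_lt hd, zero_add]
  rw [(e a i hi).1, (e a i hi).2, (e b j hj).1, (e b j hj).2] at h
  have h2 := eqN h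
  push_cast at h2
  rw [mul_comm (a.choose b : ℚ)]
  exact h2

theorem bin1 {k : ℕ} (hk : k < p) : EQ p 1 ((p - 1).choose k : ℚ) ((-1) ^ k) := by
  induction k with
  | zero =>
    simpa using EQ.refl (p := p) (k := 1) (one_mem _)
  | succ k ih =>
    have h0 := ih (by omega)
    have h1 : p ∣ p.choose (k + 1) := hp.out.dvd_choose_self (Nat.succ_ne_zero k) hk
    have h2 : EQ p 1 (p.choose (k + 1) : ℚ) ((0 : ℕ) : ℚ) := eqN ((Nat.modEq_zero_iff_dvd).2 h1)
    have h3 : (p.choose (k + 1) : ℚ) = ((p - 1).choose k : ℚ) + ((p - 1).choose (k + 1) : ℚ) := by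
      have h4 : p = p - 1 + 1 := by have := hp.out.pos; omega
      conv_lhs => rw [h4]
      rw [Nat.choose_succ_succ]
      push_cast
      rfl
    have h5 := h2.sub h0
    have e1 : ((p - 1).choose (k + 1) : ℚ) = (p.choose (k + 1) : ℚ) - ((p - 1).choose k : ℚ) := by
      rw [h3]; ring
    have e2 : ((-1 : ℚ)) ^ (k + 1) = ((0 : ℕ) : ℚ) - (-1) ^ k := by
      rw [pow_succ]; push_cast; ring
    rw [e1, e2]
    exact h5

theorem cent_big {j : ℕ} (hj : j < p) (h2 : p ≤ 2 * j) : EQ p 1 ((2 * j).choose j : ℚ) 0 := by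
  have h := lucas (p := p) 1 0 (2 * j - p) j (by omega) hj
  rw [show 1 * p + (2 * j - p) = 2 * j by omega, show 0 * p + j = j by omega,
    Nat.choose_eq_zero_of_lt (by omega : 2 * j - p < j)] at h
  push_cast at h
  rw [mul_zero] at h
  exact h

theorem cent (c j : ℕ) (hj : j < p) : EQ p 1 ((2 * (c * p + j)).choose (c * p + j) : ℚ)
    (((2 * c).choose c : ℚ) * ((2 * j).choose j : ℚ)) := by
  rcases Nat.lt_or_ge (2 * j) p with h | h
  · have h1 := lucas (p := p) (2 * c) c (2 * j) j h hj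
    rw [show 2 * c * p + 2 * j = 2 * (c * p + j) by ring] at h1
    exact h1
  · have h1 := lucas (p := p) (2 * c + 1) c (2 * j - p) j (by omega) hj
    have e : (2 * c + 1) * p + (2 * j - p) = 2 * (c * p + j) := by
      have : (2 * c + 1) * p = 2 * (c * p) + p := by ring
      omega
    rw [e, Nat.choose_eq_zero_of_lt (by omega : 2 * j - p < j)] at h1
    push_cast at h1
    rw [mul_zero] at h1
    have h2 := (EQ.refl (p := p) (k := 1) (nat_mem ((2 * c).choose c))).mul (cent_big hj h)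
    rw [mul_zero] at h2
    exact h1.trans h2.symm

/-- Fermat -/
theorem fermat {a : ℤ} (ha : ¬ (p : ℤ) ∣ a) : EQ p 1 ((a : ℚ) ^ (p - 1)) 1 := by
  have h : ((a ^ (p - 1) : ℤ) : ZMod p) = ((1 : ℤ) : ZMod p) := by
    push_cast
    apply ZMod.pow_card_sub_one_eq_one
    rw [Ne, ZMod.intCast_zmod_eq_zero_iff_dvd]
    exact ha
  have := eqZ h
  push_cast at this
  exact this

theorem fermat' (a : ℤ) : EQ p 1 ((a : ℚ) ^ p) a := by
  have h : ((a ^ p : ℤ) : ZMod p) = ((a : ℤ) : ZMod p) := by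
    push_cast
    exact ZMod.pow_card _
  have := eqZ h
  push_cast at this
  exact this

/-- from a congruence modulo `p` to one modulo `p²` -/
theorem up {x y : ℚ} (h : EQ p 1 x y) : I p 2 ((p : ℚ) * x - y * p) := by
  have h1 := (I_p (p := p)).mul h.2.2
  exact icg h1 (by ring)

theorem EQ.cst {x : ℚ} (hx : x ∈ Zp p) {y z : ℚ} (h : EQ p 1 y z) : EQ p 1 (x * y) (x * z) :=
  (EQ.refl hx).mul h

end Pool.Agent.H980.C9
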